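import Pool.Agent.H39.DIP3

/-! Continuum many axiomatic extensions of MTL have the deductive interpolation property. -/

namespace Pool.Agent.Results.MP_6be952_lc.Continuum

open Pool.Agent.H39.DIP

theorem result : Cardinal.continuum ≤ Cardinal.mk {L // AxExt ConsMTL L ∧ HasDIP L} :=
  many fun _ h => h.axMTL

end Pool.Agent.Results.MP_6be952_lc.Continuum
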